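import Pool.Agent.R872.KEC.Step

open Cardinal Function

universe u

namespace Pool.Agent.R872.KEC

/-- a small subgroup acting freely -/
def Good {Ω : Type u} (c : Cardinal.{u}) (H : Subgroup (Equiv.Perm Ω)) : Prop :=
  #H ≤ c ∧ ∀ h ∈ H, ∀ x : Ω, h x = x → h = 1

theorem good_iSup {Ω : Type u} {c : Cardinal.{u}} (hc : ℵ₀ ≤ c) {J : Type u} [Nonempty J]
    (hJ : #J ≤ c) (K : J → Subgroup (Equiv.Perm Ω)) (hK : Directed (· ≤ ·) K)
    (hg : ∀ j, Good c (K j)) : Good c (⨆ j, K j) := by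
  constructor
  · have h1 : ((⨆ j, K j : Subgroup (Equiv.Perm Ω)) : Set (Equiv.Perm Ω)) =
        ⋃ j, (K j : Set (Equiv.Perm Ω)) := Subgroup.coe_iSup_of_directed hK
    have h2 : #(⨆ j, K j : Subgroup (Equiv.Perm Ω)) =
        #(⋃ j, (K j : Set (Equiv.Perm Ω)) : Set (Equiv.Perm Ω)) := by
      rw [← h1]; rfl
    rw [h2]
    refine (mk_iUnion_le _).trans ?_
    refine mul_le_of_le hc hJ ?_
    exact ciSup_le' fun j => (hg j).1
  · intro h hh x hx
    obtain ⟨j, hj⟩ := (Subgroup.mem_iSup_of_directed hK).1 hh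
    exact (hg j).2 h hj x hx

theorem exists_group (κ : Cardinal.{u}) (hκ : κ.IsRegular) :
    ∃ (ι : Type u) (G : Type u) (_ : Group G), #ι = κ ∧ #G = 2 ^ κ ∧
      (∃ S : Set G, #S ≤ κ ∧ ∀ g h : G,
        (∀ s ∈ S, ∀ t ∈ S, Commute (g * s * g⁻¹) t ↔ Commute (h * s * h⁻¹) t) → g = h) ∧
      ∀ C : Set G, #C < κ → ∃ (H : Type u) (_ : Group H) (r : H →* G), Injective r ∧
        C ⊆ Set.range r ∧ ∀ E N : Set (FreeGroup (H ⊕ ι)), #E ≤ #ι → #N ≤ #ι →
          (∃ (V : Over H) (x : ι → V.K), Sol V.i E N x) → ∃ y : ι → G, Sol r E N y := by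
  classical
  let ι : Type u := κ.ord.ToType
  have hι : #ι = κ := mk_ord_toType κ
  have hιa : ℵ₀ ≤ #ι := hι ▸ hκ.aleph0_le
  have hcof : Order.cof ι = κ := by rw [Ordinal.cof_toType, hκ.cof_ord]
  have hbdd : ∀ s : Set ι, #s < κ → ∃ a, ∀ b ∈ s, b < a := by
    intro s hs
    rw [← not_isCofinal_iff]
    intro h
    exact absurd (Order.cof_le h) (by rw [hcof]; exact not_le.2 hs)
  have hgt : ∀ a : ι, ∃ b, a < b := by
    intro a
    obtain ⟨b, hb⟩ := hbdd {a} (by
      rw [mk_singleton]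
      exact one_lt_aleph0.trans_le hκ.aleph0_le)
    exact ⟨b, hb a rfl⟩
  have hneι : Nonempty ι := by
    rw [← mk_ne_zero_iff]
    exact (hιa.trans_lt' aleph0_pos).ne'
  let c : Cardinal.{u} := 2 ^ #ι
  have hc : ℵ₀ ≤ c := hιa.trans (cantor _).le
  let Ω : Type u := Set (Set ι)
  have hΩ : c < #Ω := by
    change (2 : Cardinal.{u}) ^ #ι < #(Set (Set ι))
    rw [mk_set, mk_set]
    exact cantor _
  -- the step function
  have hstep : ∀ H : Subgroup (Equiv.Perm Ω), ∃ H' : Subgroup (Equiv.Perm Ω), Good c H →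
      H ≤ H' ∧ Good c H' ∧
      (∀ E N : Set (FreeGroup (H ⊕ ι)), #E ≤ #ι → #N ≤ #ι →
        (∃ (V : Over H) (x : ι → V.K), Sol V.i E N x) →
        ∃ y : ι → Equiv.Perm Ω, (∀ v, y v ∈ H') ∧ Sol H.subtype E N y) ∧
      ∃ S : Set (Equiv.Perm Ω), S ⊆ H' ∧ #S ≤ #ι ∧ ∀ g ∈ H, ∀ h ∈ H,
        (∀ s ∈ S, ∀ t ∈ S, Commute (g * s * g⁻¹) t ↔ Commute (h * s * h⁻¹) t) → g = h := by
    intro H
    by_cases hH : Good c H
    · obtain ⟨H', h1, h2, h3, h4, h5⟩ := step (ι := ι) H hιa hΩ hH.1 hH.2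
      exact ⟨H', fun _ => ⟨h1, ⟨h2, h3⟩, h4, h5⟩⟩
    · exact ⟨⊥, fun h => absurd h hH⟩
  choose F hF using hstep
  -- the initial group
  obtain ⟨H0, hH0, hH0c⟩ : ∃ H0 : Subgroup (Equiv.Perm Ω), Good c H0 ∧ #H0 = c := by
    have hX : #(ι → Multiplicative (ZMod 2)) = c := by
      change _ = (2 : Cardinal.{u}) ^ #ι
      have : #(Multiplicative (ZMod 2)) = 2 := by
        rw [show #(Multiplicative (ZMod 2)) = #(Fin 2) from rfl]
        simp
      rw [mk_arrow, this]
      simp
    obtain ⟨φ, hφi, -, hφf⟩ := extend (⊥ : Subgroup (Equiv.Perm Ω)) c hc hΩ (by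
        rw [show #(⊥ : Subgroup (Equiv.Perm Ω)) = 1 from by
          rw [Cardinal.eq_one_iff_unique]
          exact ⟨inferInstance, inferInstance⟩]
        exact one_lt_aleph0.le.trans hc) (by
        intro h hh x _
        exact Subgroup.mem_bot.1 hh) (K := ι → Multiplicative (ZMod 2)) hX.le 1 (by
        intro a b _
        exact Subsingleton.elim _ _)
    have he : #φ.range = c := by
      rw [← hX]
      exact (mk_congr (MonoidHom.ofInjective hφi).toEquiv).symm
    refine ⟨φ.range, ⟨he.le, ?_⟩, he⟩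
    rintro _ ⟨k, rfl⟩ x hx
    rw [hφf k x hx, map_one]
  -- the chain
  let L' : (a : ι) → (∀ b, b < a → Subgroup (Equiv.Perm Ω)) → Subgroup (Equiv.Perm Ω) :=
    fun a rec => ⨆ o : Option (Set.Iio a), o.elim H0 (fun b => rec b.1 b.2)
  let T : ι → Subgroup (Equiv.Perm Ω) :=
    (wellFounded_lt (α := ι)).fix (fun a rec => F (L' a rec))
  let L : ι → Subgroup (Equiv.Perm Ω) := fun a =>
    ⨆ o : Option (Set.Iio a), o.elim H0 (fun b => T b.1)
  have hT : ∀ a, T a = F (L a) := fun a => (wellFounded_lt (α := ι)).fix_eq _ a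
  have hH0L : ∀ a, H0 ≤ L a := fun a =>
    le_iSup (fun o : Option (Set.Iio a) => o.elim H0 (fun b => T b.1)) none
  have hTL : ∀ a b, b < a → T b ≤ L a := fun a b hb =>
    le_iSup (fun o : Option (Set.Iio a) => o.elim H0 (fun b => T b.1)) (some ⟨b, hb⟩)
  have hmain : ∀ a, Good c (T a) ∧ L a ≤ T a ∧ Good c (L a) := by
    intro a
    induction a using (wellFounded_lt (α := ι)).induction with
    | _ a ih =>
      have hmono : ∀ b b', b < b' → b' < a → T b ≤ T b' := fun b b' hb hb' =>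
        (hTL b' b hb).trans (ih b' hb').2.1
      have hdir : Directed (· ≤ ·)
          (fun o : Option (Set.Iio a) => o.elim H0 (fun b => T b.1)) := by
        intro o o'
        rcases o with _ | b
        · rcases o' with _ | b'
          · exact ⟨none, le_rfl, le_rfl⟩
          · exact ⟨some b', (hH0L b').trans (ih b' b'.2).2.1, le_rfl⟩
        · rcases o' with _ | b'
          · exact ⟨some b, le_rfl, (hH0L b).trans (ih b b.2).2.1⟩
          · rcases lt_trichotomy b.1 b'.1 with h | h | h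
            · exact ⟨some b', hmono _ _ h b'.2, le_rfl⟩
            · exact ⟨some b', (congrArg T h).le, le_rfl⟩
            · exact ⟨some b, le_rfl, hmono _ _ h b.2⟩
      have hL : Good c (L a) := by
        refine good_iSup hc ?_ _ hdir ?_
        · rw [mk_option]
          have h1 : #(Set.Iio a) ≤ #ι := mk_set_le _
          refine add_le_of_le hc (h1.trans (cantor _).le) (one_lt_aleph0.le.trans hc)
        · rintro (_ | b)
          · exact hH0
          · exact (ih b b.2).1
      have := hF (L a) hL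
      rw [← hT a] at this
      exact ⟨this.2.1, this.1, hL⟩
  have hmono : ∀ b b', b < b' → T b ≤ T b' := fun b b' hb => (hTL b' b hb).trans (hmain b').2.1
  have hmono' : Monotone T := by
    intro b b' hb
    rcases hb.lt_or_eq with h | h
    · exact hmono _ _ h
    · rw [h]
  have hdir : Directed (· ≤ ·) T := hmono'.directed_le
  let G : Subgroup (Equiv.Perm Ω) := ⨆ a, T a
  have hTG : ∀ a, T a ≤ G := fun a => le_iSup T a
  have hLG : ∀ a, L a ≤ G := fun a => (hmain a).2.1.trans (hTG a)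
  have hGmem : ∀ g ∈ G, ∃ a, g ∈ T a := fun g hg => (Subgroup.mem_iSup_of_directed hdir).1 hg
  have hGood : Good c G := good_iSup hc (cantor _).le T hdir (fun a => (hmain a).1)
  have hcard : #G = c := by
    apply le_antisymm hGood.1
    rw [← hH0c]
    obtain ⟨a⟩ := hneι
    have : H0 ≤ G := (hH0L a).trans (hLG a)
    exact mk_le_of_injective (Subgroup.inclusion_injective this)
  choose S hS using fun a => (hF (L a) (hmain a).2.2).2.2.2
  refine ⟨ι, G, inferInstance, hι, ?_, ?_, ?_⟩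
  · rw [hcard]
    change (2 : Cardinal.{u}) ^ #ι = 2 ^ κ
    rw [hι]
  · refine ⟨{g : G | ∃ a, (g : Equiv.Perm Ω) ∈ S a}, ?_, ?_⟩
    · have h1 : #{g : G | ∃ a, (g : Equiv.Perm Ω) ∈ S a} ≤ #(⋃ a, S a : Set (Equiv.Perm Ω)) := by
        refine mk_le_of_injective (f := fun g => ⟨g.1.1, Set.mem_iUnion.2 g.2⟩) ?_
        intro g g' hgg
        apply Subtype.ext
        apply Subtype.ext
        exact congrArg (fun z : (⋃ a, S a : Set (Equiv.Perm Ω)) => (z : Equiv.Perm Ω)) hgg
      refine h1.trans ((mk_iUnion_le _).trans ?_)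
      rw [← hι]
      refine mul_le_of_le hιa le_rfl ?_
      exact ciSup_le' fun a => (hS a).2.1
    · intro g h hyp
      obtain ⟨a, ha⟩ := hGmem g g.2
      obtain ⟨b, hb⟩ := hGmem h h.2
      obtain ⟨d, hd⟩ := hgt (max a b)
      have hgL : (g : Equiv.Perm Ω) ∈ L d := hTL d a ((le_max_left a b).trans_lt hd) ha
      have hhL : (h : Equiv.Perm Ω) ∈ L d := hTL d b ((le_max_right a b).trans_lt hd) hb
      apply Subtype.ext
      apply (hS d).2.2 g hgL h hhL
      intro s hs t ht
      have hSG : ∀ s ∈ S d, s ∈ G := by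
        intro s hs
        have := (hS d).1 hs
        rw [← hT d] at this
        exact hTG d this
      have := hyp ⟨s, hSG s hs⟩ ⟨d, hs⟩ ⟨t, hSG t ht⟩ ⟨d, ht⟩
      simpa only [commute_iff_eq, Subtype.ext_iff, Subgroup.coe_mul, Subgroup.coe_inv] using this
  · intro C hC
    -- bound the coefficients
    choose A hA using fun g : G => hGmem g g.2
    obtain ⟨d, hd⟩ := hbdd (A '' C) (mk_image_le.trans_lt hC)
    refine ⟨L d, inferInstance, Subgroup.inclusion (hLG d), Subgroup.inclusion_injective _, ?_, ?_⟩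
    · intro g hg
      refine ⟨⟨g, hTL d (A g) (hd _ ⟨g, hg, rfl⟩) (hA g)⟩, ?_⟩
      exact Subtype.ext rfl
    · intro E N hE hN hsol
      obtain ⟨y, hy, hy1, hy2⟩ := (hF (L d) (hmain d).2.2).2.2.1 E N hE hN hsol
      have hyG : ∀ v, y v ∈ G := by
        intro v
        have := hy v
        rw [← hT d] at this
        exact hTG d this
      have hev : ∀ w : FreeGroup (L d ⊕ ι),
          ((FreeGroup.lift (Sum.elim (Subgroup.inclusion (hLG d))
            (fun v => (⟨y v, hyG v⟩ : G))) w : G) : Equiv.Perm Ω) =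
          FreeGroup.lift (Sum.elim (L d).subtype y) w := by
        intro w
        exact (lift_comp (Subgroup.inclusion (hLG d)) G.subtype
          (fun v => (⟨y v, hyG v⟩ : G)) w).symm
      refine ⟨fun v => ⟨y v, hyG v⟩, ?_, ?_⟩
      · intro w hw
        apply Subtype.ext
        rw [hev]
        exact hy1 w hw
      · intro w hw h
        apply hy2 w hw
        rw [← hev, h]
        rfl

end Pool.Agent.R872.KEC
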