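import Mathlib

open Cardinal Function

universe u

namespace Pool.Agent.R872.KEC

/-- two free actions of a small group on large sets of the same size are isomorphic -/
theorem equivariant {H : Type u} [Group H] {Y Z : Type u} (a : H →* Equiv.Perm Y)
    (b : H →* Equiv.Perm Z) (c : Cardinal.{u}) (hc : ℵ₀ ≤ c) (hH : #H ≤ c) (hY : c < #Y)
    (hYZ : #Y = #Z) (ha : ∀ h y, a h y = y → h = 1) (hb : ∀ h z, b h z = z → h = 1) :
    ∃ e : Y ≃ Z, ∀ h y, e (a h y) = b h (e y) := by
  -- orbit decompositions
  have key : ∀ {W : Type u} (w : H →* Equiv.Perm W), c < #W → (∀ h x, w h x = x → h = 1) →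
      ∃ (Q : Type u) (f : H × Q ≃ W), #Q = #W ∧ ∀ h p, f (h * p.1, p.2) = w h (f p) := by
    intro W w hW hw
    let s : Setoid W :=
      { r := fun x y => ∃ h, w h x = y
        iseqv := ⟨fun x => ⟨1, by simp⟩, fun {x y} ⟨h, hh⟩ => ⟨h⁻¹, by rw [← hh]; simp⟩,
          fun {x y z} ⟨h, hh⟩ ⟨k, hk⟩ => ⟨k * h, by rw [map_mul, Equiv.Perm.mul_apply, hh, hk]⟩⟩ }
    have hbij : Bijective (fun p : H × Quotient s => w p.1 p.2.out) := by
      constructor
      · rintro ⟨h, p⟩ ⟨k, q⟩ hpq
        simp only at hpq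
        have h1 : p = q := by
          rw [← p.out_eq, ← q.out_eq]
          apply Quotient.sound
          refine ⟨k⁻¹ * h, ?_⟩
          rw [map_mul, Equiv.Perm.mul_apply, hpq, map_inv]
          exact Equiv.symm_apply_apply _ _
        subst h1
        have h2 : w (k⁻¹ * h) p.out = p.out := by
          rw [map_mul, Equiv.Perm.mul_apply, hpq, map_inv]
          exact Equiv.symm_apply_apply _ _
        have h3 := hw _ _ h2
        have h4 : h = k := by
          rw [inv_mul_eq_one] at h3
          exact h3.symm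
        rw [h4]
      · intro x
        obtain ⟨h, hh⟩ : s.r (Quotient.mk s x).out x := Quotient.exact (Quotient.out_eq _)
        exact ⟨(h, Quotient.mk s x), hh⟩
    refine ⟨Quotient s, Equiv.ofBijective _ hbij, ?_, ?_⟩
    · apply le_antisymm
      · exact mk_le_of_surjective Quotient.mk_surjective
      · by_contra hlt
        rw [not_le] at hlt
        have h1 : #W = #H * #(Quotient s) := by
          rw [← mk_congr (Equiv.ofBijective _ hbij), mk_prod, lift_id, lift_id]
        have h2 : #W < #W := by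
          conv_lhs => rw [h1]
          exact mul_lt_of_lt (hc.trans hW.le) (hH.trans_lt hW) hlt
        exact lt_irrefl _ h2
    · intro h p
      simp [Equiv.ofBijective_apply, map_mul]
  obtain ⟨Q, f, hQ, hf⟩ := key a hY ha
  obtain ⟨R, g, hR, hg⟩ := key b (hYZ ▸ hY) hb
  have hQR : #Q = #R := by rw [hQ, hR, hYZ]
  obtain ⟨e⟩ := Cardinal.eq.1 hQR
  refine ⟨f.symm.trans ((Equiv.prodCongr (Equiv.refl H) e).trans g), ?_⟩
  intro h y
  obtain ⟨p, rfl⟩ := f.surjective y
  rw [← hf]
  simp [← hg]

/-- extension lemma: a small subgroup of `Perm Ω` acting freely, and a small overgroup of it,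
  then the overgroup acts freely, compatibly -/
theorem extend {Ω : Type u} (H : Subgroup (Equiv.Perm Ω)) (c : Cardinal.{u}) (hc : ℵ₀ ≤ c)
    (hΩ : c < #Ω) (hH : #H ≤ c) (hfree : ∀ h ∈ H, ∀ x : Ω, h x = x → h = 1)
    {K : Type u} [Group K] (hK : #K ≤ c) (j : H →* K) (hj : Injective j) :
    ∃ φ : K →* Equiv.Perm Ω, Injective φ ∧ (∀ h : H, φ (j h) = h) ∧
      ∀ k x, φ k x = x → k = 1 := by
  let b' : K →* Equiv.Perm (K × Ω) :=
    { toFun := fun k => Equiv.prodCongr (Equiv.mulLeft k) (Equiv.refl Ω)
      map_one' := by ext p <;> simp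
      map_mul' := fun x y => by ext p <;> simp [mul_assoc] }
  have hb'1 : ∀ k p, b' k p = (k * p.1, p.2) := fun k p => rfl
  have hcard : #Ω = #(K × Ω) := by
    rw [mk_prod, lift_id, lift_id]
    symm
    apply mul_eq_right (hc.trans hΩ.le) (hK.trans hΩ.le)
    exact mk_ne_zero K
  obtain ⟨e, he⟩ := equivariant (H := H) H.subtype (b'.comp j) c hc hH hΩ hcard
    (by
      intro h y hy
      exact Subtype.ext (hfree h h.2 y hy))
    (by
      intro h z hz
      rw [MonoidHom.comp_apply, hb'1] at hz
      have := congrArg Prod.fst hz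
      have h2 : j h = 1 := mul_eq_right.1 this
      exact hj (by rw [h2, map_one]))
  let φ : K →* Equiv.Perm Ω :=
    { toFun := fun k => e.trans ((b' k).trans e.symm)
      map_one' := by
        rw [map_one]; ext x; simp
      map_mul' := fun x y => by
        rw [map_mul]; ext x; simp }
  have hφ : ∀ k x, φ k x = e.symm (b' k (e x)) := fun k x => rfl
  have hfr : ∀ k x, φ k x = x → k = 1 := by
    intro k x hx
    rw [hφ, Equiv.symm_apply_eq, hb'1] at hx
    have := congrArg Prod.fst hx
    simpa using this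
  refine ⟨φ, ?_, ?_, hfr⟩
  · rw [injective_iff_map_eq_one]
    intro k hk
    have hne : Nonempty Ω := by
      rw [← mk_ne_zero_iff]
      exact (hc.trans hΩ.le).trans_lt' aleph0_pos |>.ne'
    obtain ⟨x⟩ := hne
    apply hfr k x
    rw [hk]; rfl
  · intro h
    ext x
    rw [hφ]
    have := he h x
    rw [MonoidHom.comp_apply] at this
    rw [← this, Equiv.symm_apply_apply]
    rfl

/-- a subgroup generated by few elements is small -/
theorem card_closure_le {G : Type u} [Group G] (s : Set G) (c : Cardinal.{u}) (hc : ℵ₀ ≤ c)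
    (hs : #s ≤ c) : #(Subgroup.closure s) ≤ c := by
  rw [FreeGroup.closure_eq_range]
  have h1 : #(FreeGroup.lift ((↑) : s → G)).range ≤ #(FreeGroup s) :=
    mk_le_of_surjective (MonoidHom.rangeRestrict_surjective _)
  refine h1.trans ?_
  rcases isEmpty_or_nonempty s with hs' | hs'
  · have : #(FreeGroup s) ≤ 1 := by
      rw [le_one_iff_subsingleton]
      infer_instance
    exact this.trans ((one_lt_aleph0.le).trans hc)
  · rw [mk_freeGroup]
    exact max_le hs hc

end Pool.Agent.R872.KEC
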