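import Pool.Agent.R872.KEC.Ext

open Cardinal Function

universe u

namespace Pool.Agent.R872.KEC

/-- the permutation of `H × Fin 3` acting by `τ` on the fibres over `A` -/
noncomputable def fib {H : Type u} (A : Set H) (τ : Equiv.Perm (Fin 3)) :
    Equiv.Perm (H × Fin 3) :=
  haveI := Classical.decPred (· ∈ A)
  { toFun := fun p => (p.1, if p.1 ∈ A then τ p.2 else p.2)
    invFun := fun p => (p.1, if p.1 ∈ A then τ⁻¹ p.2 else p.2)
    left_inv := fun p => by by_cases h : p.1 ∈ A <;> simp [h]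
    right_inv := fun p => by by_cases h : p.1 ∈ A <;> simp [h] }

theorem fib_mem {H : Type u} (A : Set H) (τ : Equiv.Perm (Fin 3)) {h : H} (hh : h ∈ A)
    (i : Fin 3) : fib A τ (h, i) = (h, τ i) := by
  simp [fib, hh]

theorem fib_not_mem {H : Type u} (A : Set H) (τ : Equiv.Perm (Fin 3)) {h : H} (hh : h ∉ A)
    (i : Fin 3) : fib A τ (h, i) = (h, i) := by
  simp [fib, hh]

/-- left multiplication on the first factor -/
def lm (H : Type u) [Group H] : H →* Equiv.Perm (H × Fin 3) where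
  toFun h := Equiv.prodCongr (Equiv.mulLeft h) (Equiv.refl (Fin 3))
  map_one' := by ext p <;> simp
  map_mul' x y := by ext p <;> simp [mul_assoc]

theorem lm_apply {H : Type u} [Group H] (h k : H) (i : Fin 3) : lm H h (k, i) = (h * k, i) := rfl

theorem lm_injective {H : Type u} [Group H] : Injective (lm H) := by
  rw [injective_iff_map_eq_one]
  intro a ha
  have := congrArg (fun f => (f (1, 0)).1) ha
  simpa [lm_apply] using this

theorem lm_conj {H : Type u} [Group H] (g : H) (τ : Equiv.Perm (Fin 3)) :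
    lm H g * fib {1} τ * (lm H g)⁻¹ = fib {g} τ := by
  rw [mul_inv_eq_iff_eq_mul]
  apply Equiv.ext
  rintro ⟨h, i⟩
  change lm H g (fib {1} τ (h, i)) = fib {g} τ (g * h, i)
  by_cases h1 : h = 1
  · subst h1
    have a1 : fib ({1} : Set H) τ (1, i) = (1, τ i) := fib_mem _ _ (by simp) i
    have a2 : fib {g} τ (g * 1, i) = (g * 1, τ i) := fib_mem _ _ (by simp) i
    rw [a1, a2]
    rfl
  · have a1 : fib ({1} : Set H) τ (h, i) = (h, i) := fib_not_mem _ _ (by simpa using h1) i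
    have a2 : fib {g} τ (g * h, i) = (g * h, i) := fib_not_mem _ _ (by simpa using h1) i
    rw [a1, a2]
    rfl

theorem commute_fib {H : Type u} (g : H) (A : Set H) :
    Commute (fib {g} (Equiv.swap 0 1)) (fib A (Equiv.swap 1 2)) ↔ g ∉ A := by
  constructor
  · intro h hA
    have h1 := congrArg (fun f => (f (g, 0)).2) h.eq
    simp only [Equiv.Perm.mul_apply] at h1
    rw [fib_mem A _ hA, fib_mem {g} _ (by simp), fib_mem {g} _ (by simp), fib_mem A _ hA] at h1
    exact absurd h1 (by decide :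
      (Equiv.swap (0 : Fin 3) 1) ((Equiv.swap 1 2) 0) ≠ (Equiv.swap 1 2) ((Equiv.swap 0 1) 0))
  · intro hA
    apply Equiv.ext
    rintro ⟨h, i⟩
    rw [Equiv.Perm.mul_apply, Equiv.Perm.mul_apply]
    by_cases h1 : h ∈ A
    · have h2 : h ∉ ({g} : Set H) := by
        rintro rfl
        exact hA h1
      rw [fib_mem A _ h1, fib_not_mem _ _ h2, fib_not_mem _ _ h2, fib_mem A _ h1]
    · by_cases h2 : h ∈ ({g} : Set H)
      · rw [fib_not_mem A _ h1, fib_mem _ _ h2, fib_not_mem A _ h1]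
      · rw [fib_not_mem A _ h1, fib_not_mem _ _ h2, fib_not_mem A _ h1]

/-- every group of size at most `2 ^ #ι` embeds in a group with `#ι` elements which
  separate the points of the small group by commutation -/
theorem separate (H : Type u) [Group H] (ι : Type u) (hι : ℵ₀ ≤ #ι) (hH : #H ≤ 2 ^ #ι) :
    ∃ S : Set (Equiv.Perm (H × Fin 3)), #S ≤ #ι ∧ ∀ g h : H,
      (∀ s ∈ S, ∀ t ∈ S, Commute (lm H g * s * (lm H g)⁻¹) t ↔
        Commute (lm H h * s * (lm H h)⁻¹) t) → g = h := by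
  have h1 : #H ≤ #(Set ι) := by rwa [mk_set]
  obtain ⟨c⟩ := Cardinal.le_def _ _ |>.1 h1
  let A : ι → Set H := fun i => {h | i ∈ c h}
  refine ⟨{fib {1} (Equiv.swap 0 1)} ∪ Set.range (fun i => fib (A i) (Equiv.swap 1 2)), ?_, ?_⟩
  · refine (mk_union_le _ _).trans ?_
    refine (add_le_add (mk_singleton _).le mk_range_le).trans ?_
    rw [add_comm]
    exact (add_one_eq hι).le
  · intro g h hyp
    apply c.injective
    ext i
    have := hyp (fib {1} (Equiv.swap 0 1)) (Or.inl rfl) (fib (A i) (Equiv.swap 1 2))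
      (Or.inr ⟨i, rfl⟩)
    rw [lm_conj, lm_conj, commute_fib, commute_fib] at this
    exact not_iff_not.1 this

/-- an overgroup -/
structure Over (H : Type u) [Group H] where
  K : Type u
  grp : Group K
  i : H →* K
  inj : Injective i

attribute [instance] Over.grp

/-- the system `(E, N)` of equations and inequations has the solution `x` in the overgroup `i` -/
def Sol {H K : Type u} [Group H] [Group K] {ι : Type u} (i : H →* K)
    (E N : Set (FreeGroup (H ⊕ ι))) (x : ι → K) : Prop :=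
  (∀ w ∈ E, FreeGroup.lift (Sum.elim i x) w = 1) ∧
    ∀ w ∈ N, FreeGroup.lift (Sum.elim i x) w ≠ 1

/-- the index type of the solvable systems -/
def Sys (H : Type u) [Group H] (ι : Type u) : Type u :=
  {p : Set (FreeGroup (H ⊕ ι)) × Set (FreeGroup (H ⊕ ι)) // (#p.1 ≤ #ι ∧ #p.2 ≤ #ι) ∧
    ∃ (V : Over H) (x : ι → V.K), Sol V.i p.1 p.2 x}

theorem card_Sys (H : Type u) [Group H] (ι : Type u) (hι : ℵ₀ ≤ #ι) (hH : #H ≤ 2 ^ #ι) :
    #(Sys H ι) ≤ 2 ^ #ι := by
  have hne : Nonempty ι := by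
    rw [← mk_ne_zero_iff]
    exact (hι.trans_lt' aleph0_pos).ne'
  have h2 : ℵ₀ ≤ (2 : Cardinal.{u}) ^ #ι := hι.trans (cantor _).le
  have hW : max #(FreeGroup (H ⊕ ι)) ℵ₀ ≤ 2 ^ #ι := by
    rw [mk_freeGroup, max_assoc, max_self, mk_sum, lift_id, lift_id]
    refine max_le ?_ h2
    exact add_le_of_le h2 hH (cantor _).le
  have h3 : #{t : Set (FreeGroup (H ⊕ ι)) // #t ≤ #ι} ≤ 2 ^ #ι := by
    refine (mk_bounded_set_le _ _).trans ?_
    refine (power_le_power_right hW).trans ?_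
    rw [← power_mul, mul_eq_self hι]
  have h4 : #(Sys H ι) ≤
      #({t : Set (FreeGroup (H ⊕ ι)) // #t ≤ #ι} × {t : Set (FreeGroup (H ⊕ ι)) // #t ≤ #ι}) := by
    refine mk_le_of_injective (f := fun p => (⟨p.1.1, p.2.1.1⟩, ⟨p.1.2, p.2.1.2⟩)) ?_
    intro p q hpq
    apply Subtype.ext
    have h5 := congrArg (fun z => (z.1.1, z.2.1)) hpq
    exact h5
  refine h4.trans ?_
  rw [mk_prod, lift_id]
  exact mul_le_of_le h2 h3 h3

/-- transport of evaluations along homomorphisms -/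
theorem lift_comp {H K L : Type u} [Group H] [Group K] [Group L] {ι : Type u} (i : H →* K)
    (f : K →* L) (x : ι → K) (w : FreeGroup (H ⊕ ι)) :
    FreeGroup.lift (Sum.elim (f.comp i) (f ∘ x)) w = f (FreeGroup.lift (Sum.elim i x) w) := by
  have : FreeGroup.lift (Sum.elim (f.comp i) (f ∘ x)) =
      f.comp (FreeGroup.lift (Sum.elim i x)) := by
    ext a
    rcases a with a | a <;> simp
  rw [this]; rfl

theorem step {Ω ι : Type u} (H : Subgroup (Equiv.Perm Ω)) (hι : ℵ₀ ≤ #ι)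
    (hΩ : 2 ^ #ι < #Ω) (hH : #H ≤ 2 ^ #ι) (hfree : ∀ h ∈ H, ∀ x : Ω, h x = x → h = 1) :
    ∃ H' : Subgroup (Equiv.Perm Ω), H ≤ H' ∧ #H' ≤ 2 ^ #ι ∧
      (∀ h ∈ H', ∀ x : Ω, h x = x → h = 1) ∧
      (∀ E N : Set (FreeGroup (H ⊕ ι)), #E ≤ #ι → #N ≤ #ι →
        (∃ (V : Over H) (x : ι → V.K), Sol V.i E N x) →
        ∃ y : ι → Equiv.Perm Ω, (∀ v, y v ∈ H') ∧ Sol H.subtype E N y) ∧
      ∃ S : Set (Equiv.Perm Ω), S ⊆ H' ∧ #S ≤ #ι ∧ ∀ g ∈ H, ∀ h ∈ H,
        (∀ s ∈ S, ∀ t ∈ S, Commute (g * s * g⁻¹) t ↔ Commute (h * s * h⁻¹) t) → g = h := by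
  classical
  have h2 : ℵ₀ ≤ (2 : Cardinal.{u}) ^ #ι := hι.trans (cantor _).le
  obtain ⟨S0, hS0, hsep⟩ := separate H ι hι hH
  -- the family
  let V0 : Over H := ⟨Equiv.Perm (H × Fin 3), inferInstance, lm H, lm_injective⟩
  let V1 : Sys H ι → Over H := fun σ => σ.2.2.choose
  let x1 : ∀ σ : Sys H ι, ι → (V1 σ).K := fun σ => σ.2.2.choose_spec.choose
  have hx1 : ∀ σ : Sys H ι, Sol (V1 σ).i σ.1.1 σ.1.2 (x1 σ) := fun σ =>
    σ.2.2.choose_spec.choose_spec
  let F : Option (Sys H ι) → Over H := fun o => o.elim V0 V1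
  let φ0 : ∀ o, H →* (F o).K := fun o => (F o).i
  have hφ0 : ∀ o, Injective (φ0 o) := fun o => (F o).inj
  let bs : H →* Monoid.PushoutI φ0 := Monoid.PushoutI.base φ0
  have hbs : Injective bs := Monoid.PushoutI.base_injective hφ0
  let of0 : Equiv.Perm (H × Fin 3) →* Monoid.PushoutI φ0 := Monoid.PushoutI.of (φ := φ0) none
  have hof0 : Injective of0 := Monoid.PushoutI.of_injective hφ0 none
  let of1 : ∀ σ : Sys H ι, (V1 σ).K →* Monoid.PushoutI φ0 := fun σ =>
    Monoid.PushoutI.of (φ := φ0) (some σ)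
  have hof1 : ∀ σ, Injective (of1 σ) := fun σ => Monoid.PushoutI.of_injective hφ0 (some σ)
  have hb0 : ∀ h, of0 (lm H h) = bs h := fun h => Monoid.PushoutI.of_apply_eq_base φ0 none h
  have hb1 : ∀ σ h, of1 σ ((V1 σ).i h) = bs h := fun σ h =>
    Monoid.PushoutI.of_apply_eq_base φ0 (some σ) h
  -- the small subgroup
  let T : Set (Monoid.PushoutI φ0) := Set.range bs ∪
    (Set.range (fun p : Sys H ι × ι => of1 p.1 (x1 p.1 p.2)) ∪ of0 '' S0)
  have hT : #T ≤ 2 ^ #ι := by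
    refine (mk_union_le _ _).trans ?_
    refine add_le_of_le h2 (mk_range_le.trans hH) ?_
    refine (mk_union_le _ _).trans ?_
    refine add_le_of_le h2 (mk_range_le.trans ?_) (mk_image_le.trans (hS0.trans (cantor _).le))
    rw [mk_prod, lift_id, lift_id]
    exact mul_le_of_le h2 (card_Sys H ι hι hH) (cantor _).le
  let B : Subgroup (Monoid.PushoutI φ0) := Subgroup.closure T
  have hB : #B ≤ 2 ^ #ι := card_closure_le T _ h2 hT
  have hTB : ∀ t ∈ T, t ∈ B := fun t ht => Subgroup.subset_closure ht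
  let j : H →* B := bs.codRestrict B (fun h => hTB _ (Or.inl ⟨h, rfl⟩))
  have hj : Injective j := by
    intro a b hab
    apply hbs
    exact congrArg Subtype.val hab
  obtain ⟨φ, hφi, hφj, hφf⟩ := extend H (2 ^ #ι) h2 hΩ hH hfree hB j hj
  refine ⟨φ.range, ?_, ?_, ?_, ?_, ?_⟩
  · intro h hh
    exact ⟨j ⟨h, hh⟩, hφj ⟨h, hh⟩⟩
  · exact (mk_le_of_surjective φ.rangeRestrict_surjective).trans hB
  · rintro _ ⟨k, rfl⟩ x hx
    rw [hφf k x hx, map_one]
  · intro E N hE hN hsol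
    let σ : Sys H ι := ⟨(E, N), ⟨hE, hN⟩, hsol⟩
    let xB : ι → B := fun v => ⟨of1 σ (x1 σ v), hTB _ (Or.inr (Or.inl ⟨(σ, v), rfl⟩))⟩
    have hev : ∀ w, FreeGroup.lift (Sum.elim H.subtype (φ ∘ xB)) w =
        φ (FreeGroup.lift (Sum.elim j xB) w) := by
      intro w
      have hsub : H.subtype = φ.comp j := by
        apply MonoidHom.ext
        intro h
        exact (hφj h).symm
      rw [hsub, lift_comp]
    have hev2 : ∀ w, ((FreeGroup.lift (Sum.elim j xB) w : B) : Monoid.PushoutI φ0) =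
        of1 σ (FreeGroup.lift (Sum.elim (V1 σ).i (x1 σ)) w) := by
      intro w
      rw [← lift_comp]
      have := lift_comp j B.subtype xB w
      rw [Subgroup.coe_subtype] at this
      rw [← this]
      have hsub : B.subtype.comp j = (of1 σ).comp (V1 σ).i := by
        apply MonoidHom.ext
        intro h
        exact (hb1 σ h).symm
      rw [hsub]
      rfl
    have hone : ∀ w, FreeGroup.lift (Sum.elim H.subtype (φ ∘ xB)) w = 1 ↔
        FreeGroup.lift (Sum.elim (V1 σ).i (x1 σ)) w = 1 := by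
      intro w
      rw [hev, map_eq_one_iff φ hφi, ← map_eq_one_iff (of1 σ) (hof1 σ), ← hev2]
      exact Subtype.ext_iff
    refine ⟨φ ∘ xB, fun v => ⟨xB v, rfl⟩, ?_, ?_⟩
    · intro w hw
      rw [hone]
      exact (hx1 σ).1 w hw
    · intro w hw
      rw [Ne, hone]
      exact (hx1 σ).2 w hw
  · have hS0B : ∀ s ∈ S0, of0 s ∈ B := fun s hs => hTB _ (Or.inr (Or.inr ⟨s, hs, rfl⟩))
    refine ⟨Set.range (fun s : S0 => φ ⟨of0 s, hS0B s s.2⟩), ?_, ?_, ?_⟩
    · rintro _ ⟨s, rfl⟩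
      exact ⟨_, rfl⟩
    · exact mk_range_le.trans hS0
    · intro g hg h hh hyp
      have hcomm : ∀ g (hg : g ∈ H) (s t : S0),
          (Commute (g * φ ⟨of0 s, hS0B s s.2⟩ * g⁻¹) (φ ⟨of0 t, hS0B t t.2⟩) ↔
            Commute (lm H ⟨g, hg⟩ * s * (lm H ⟨g, hg⟩)⁻¹) t.1) := by
        intro g hg s t
        have h5 : g = φ (j ⟨g, hg⟩) := (hφj ⟨g, hg⟩).symm
        have h6 : (j ⟨g, hg⟩ : Monoid.PushoutI φ0) = of0 (lm H ⟨g, hg⟩) := (hb0 _).symm
        rw [commute_iff_eq, commute_iff_eq]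
        conv_lhs => rw [h5]
        rw [← map_inv, ← map_mul, ← map_mul, ← map_mul, ← map_mul, hφi.eq_iff, Subtype.ext_iff]
        simp only [Subgroup.coe_mul, Subgroup.coe_inv, h6]
        rw [← map_inv, ← map_mul, ← map_mul, ← map_mul, ← map_mul, hof0.eq_iff]
      have := hsep ⟨g, hg⟩ ⟨h, hh⟩ (by
        intro s hs t ht
        rw [← hcomm g hg ⟨s, hs⟩ ⟨t, ht⟩, ← hcomm h hh ⟨s, hs⟩ ⟨t, ht⟩]
        exact hyp _ ⟨⟨s, hs⟩, rfl⟩ _ ⟨⟨t, ht⟩, rfl⟩)
      exact congrArg Subtype.val this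

end Pool.Agent.R872.KEC
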